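import Mathlib

/-!
The final estimate of the superquadratic lower bound for permanent versus determinant.
-/

namespace L5helper96.DC

open Finset

theorem log_factorial_ge (n : ℕ) (hn : 1 ≤ n) :
    (n : ℝ) * (Real.log n - 1) ≤ Real.log (n.factorial : ℝ) := by
  have hn0 : (0 : ℝ) < n := by exact_mod_cast hn
  have hf : (0 : ℝ) < (n.factorial : ℝ) := by exact_mod_cast n.factorial_pos
  have h := Real.pow_div_factorial_le_exp (x := (n : ℝ)) hn0.le n
  have h2 : Real.log ((n : ℝ) ^ n / (n.factorial : ℝ)) ≤ (n : ℝ) := by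
    have := Real.log_le_log (by positivity) h
    simpa using this
  rw [Real.log_div (by positivity) (by positivity), Real.log_pow] at h2
  linarith

theorem log_gap : (2.0127 : ℝ) ≤ Real.log 15 - Real.log 2 := by
  have h2 : (0.6931471803 : ℝ) < Real.log 2 := Real.log_two_gt_d9
  have h1 : 1 - (15 / 16 : ℝ)⁻¹ ≤ Real.log (15 / 16) :=
    Real.one_sub_inv_le_log_of_pos (by norm_num)
  have h3 : Real.log (15 / 16) = Real.log 15 - 4 * Real.log 2 := by
    rw [Real.log_div (by norm_num) (by norm_num), show (16 : ℝ) = 2 ^ 4 by norm_num, Real.log_pow]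
    norm_num
  rw [h3] at h1
  norm_num at h1 ⊢
  linarith

/-- the numeric core -/
theorem core (q n κ M Q K : ℕ) (hq : 5 ≤ q) (hQ : Q = q.factorial ^ 2) (hn : 1 ≤ n)
    (hK : K = κ * (n * Q * (2 * q)))
    (key : (Q.factorial) ^ (n * κ) * (15 ^ (K + 1) * q ^ (2 * M)) ≤
      (15 + q) ^ (2 * M + 1) * (2 * q) ^ K) :
    0.9127 * (K : ℝ) - q ≤ (2 * (M : ℝ) + 1) * (15 / q) := by
  have hq0 : (0 : ℝ) < q := by exact_mod_cast (by omega : 0 < q)
  have hq5 : (5 : ℝ) ≤ q := by exact_mod_cast hq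
  have hQpos : 1 ≤ Q := by rw [hQ]; exact Nat.one_le_iff_ne_zero.2 (by positivity)
  have hQf : (0 : ℝ) < (Q.factorial : ℝ) := by exact_mod_cast Q.factorial_pos
  have key' : ((Q.factorial : ℝ)) ^ (n * κ) * ((15 : ℝ) ^ (K + 1) * (q : ℝ) ^ (2 * M)) ≤
      (15 + (q : ℝ)) ^ (2 * M + 1) * (2 * (q : ℝ)) ^ K := by exact_mod_cast key
  have L := Real.log_le_log (by positivity) key'
  rw [Real.log_mul (by positivity) (by positivity), Real.log_mul (by positivity) (by positivity),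
    Real.log_mul (by positivity) (by positivity), Real.log_pow, Real.log_pow, Real.log_pow,
    Real.log_pow, Real.log_pow, Real.log_mul (by norm_num) (by positivity)] at L
  push_cast at L
  -- log (15 + q)
  have e1 : Real.log (15 + (q : ℝ)) ≤ Real.log q + 15 / q := by
    have : (15 + (q : ℝ)) = q * (1 + 15 / q) := by field_simp; ring
    rw [this, Real.log_mul (by positivity) (by positivity)]
    have := Real.log_le_sub_one_of_pos (show (0 : ℝ) < 1 + 15 / q by positivity)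
    linarith
  have e2 := log_factorial_ge Q hQpos
  have e3 := log_factorial_ge q (by omega)
  have e4 : Real.log (Q : ℝ) = 2 * Real.log (q.factorial : ℝ) := by
    rw [hQ]; push_cast; rw [Real.log_pow]; norm_num
  set lq := Real.log (q : ℝ)
  set lF := Real.log (Q.factorial : ℝ)
  set lf := Real.log (q.factorial : ℝ)
  have e5 : (Q : ℝ) * (2 * q * (lq - 1) - 1) ≤ lF := by
    refine le_trans ?_ e2
    rw [e4]
    have hQ0 : (0 : ℝ) ≤ Q := by positivity
    nlinarith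
  have e6 : ((n : ℝ) * κ) * ((Q : ℝ) * (2 * q * (lq - 1) - 1)) ≤ ((n : ℝ) * κ) * lF :=
    mul_le_mul_of_nonneg_left e5 (by positivity)
  have hKr : (K : ℝ) = κ * (n * Q * (2 * q)) := by rw [hK]; push_cast; ring
  have e7 : ((n : ℝ) * κ) * ((Q : ℝ) * (2 * q * (lq - 1) - 1)) =
      K * (lq - 1) - (n * κ * Q : ℝ) := by rw [hKr]; ring
  have e8 : (n * κ * Q : ℝ) ≤ K / 10 := by
    rw [hKr]
    have : (0 : ℝ) ≤ n * κ * Q := by positivity
    nlinarith
  have e9 : lq ≤ q := by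
    have := Real.log_le_sub_one_of_pos hq0
    linarith
  have e10 : (0 : ℝ) ≤ Real.log 15 := Real.log_nonneg (by norm_num)
  have e11 := log_gap
  have e12 : (2 * (M : ℝ) + 1) * Real.log (15 + (q : ℝ)) ≤ (2 * (M : ℝ) + 1) * (lq + 15 / q) :=
    mul_le_mul_of_nonneg_left e1 (by positivity)
  have hK0 : (0 : ℝ) ≤ K := by positivity
  have e13 : (K : ℝ) * 2.0127 ≤ K * (Real.log 15 - Real.log 2) :=
    mul_le_mul_of_nonneg_left e11 hK0
  nlinarith

theorem final_arith (P : ℕ → ℕ → Prop) (hmono : ∀ m m' M, m' ≤ m → P m M → P m' M)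
    (B : ℕ → Finset ℕ) (hB : ∀ q, (B q).card ≤ (q.factorial) ^ 2 * (2 * q))
    (h : ∀ q n κ m M, 2 ≤ q → 2 ≤ n → n ∉ B q → 1 ≤ κ →
      m + (q + 1) = n * (q.factorial) ^ 2 + (κ + 1) * (2 * q) → P m M →
      ∀ a b : ℕ, 1 ≤ a → 1 ≤ b →
      (((q.factorial) ^ 2).factorial) ^ (n * κ) *
          (a ^ (κ * (n * (q.factorial) ^ 2 * (2 * q)) + 1) * b ^ (2 * M)) ≤
        (a + b) ^ (2 * M + 1) * (2 * b) ^ (κ * (n * (q.factorial) ^ 2 * (2 * q)))) :
    ∀ q m M, 5 ≤ q → (q.factorial) ^ 5 ≤ m → P m M → q * m ^ 2 ≤ 160 * (M + 1) := by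
  intro q m M hq hm hP
  obtain ⟨F, hF⟩ : ∃ F, F = q.factorial := ⟨_, rfl⟩
  obtain ⟨Q, hQ⟩ : ∃ Q, Q = F ^ 2 := ⟨_, rfl⟩
  have hF24 : 24 * q ≤ F := by
    obtain ⟨r, rfl⟩ : ∃ r, q = r + 1 := ⟨q - 1, by omega⟩
    have h4 : (4 : ℕ).factorial ≤ r.factorial := Nat.factorial_le (by omega)
    have h4' : 24 ≤ r.factorial := by simpa [Nat.factorial] using h4
    rw [hF, Nat.factorial_succ, mul_comm]
    exact Nat.mul_le_mul_left _ h4'
  have hF120 : 120 ≤ F := by omega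
  rw [← hF] at hm
  have hFpos : 0 < F := by omega
  have hQpos : 0 < Q := by rw [hQ]; positivity
  -- numeric facts
  have hA1 : 24 * (q * F ^ 4) ≤ m := by
    calc 24 * (q * F ^ 4) = (24 * q) * F ^ 4 := by ring
      _ ≤ F * F ^ 4 := Nat.mul_le_mul_right _ hF24
      _ = F ^ 5 := by ring
      _ ≤ m := hm
  have hA2 : 1728000 * Q ≤ m := by
    calc 1728000 * Q = 120 * 120 * 120 * F ^ 2 := by rw [hQ]
      _ ≤ F * F * F * F ^ 2 := by gcongr
      _ = F ^ 5 := by ring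
      _ ≤ m := hm
  have hQF : Q * Q = F ^ 4 := by rw [hQ]; ring
  have hQ14400 : 14400 ≤ Q := by rw [hQ]; nlinarith
  obtain ⟨β, hβ⟩ : ∃ β, β = Q * (2 * q) := ⟨_, rfl⟩
  obtain ⟨x, hx⟩ : ∃ x, x = m / (2 * Q) := ⟨_, rfl⟩
  have hx1 : x * (2 * Q) ≤ m := by rw [hx]; exact Nat.div_mul_le_self m _
  have hx2 : m < (x + 1) * (2 * Q) := by
    rw [hx, mul_comm]; exact Nat.lt_mul_div_succ m (by positivity)
  have hxβ : β + 2 ≤ x := by
    rw [hx, Nat.le_div_iff_mul_le (by positivity), hβ]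
    calc (Q * (2 * q) + 2) * (2 * Q) = 4 * (q * (Q * Q)) + 4 * Q := by ring
      _ = 4 * (q * F ^ 4) + 4 * Q := by rw [hQF]
      _ ≤ m := by omega
  obtain ⟨n, hn1, hn2⟩ : ∃ n ∈ Finset.Icc (x - β) x, n ∉ B q := by
    by_contra hcon
    push Not at hcon
    have hsub : Finset.Icc (x - β) x ⊆ B q := fun a ha => hcon a ha
    have hc := Finset.card_le_card hsub
    rw [Nat.card_Icc] at hc
    have := hB q
    rw [← hF, ← hQ, ← hβ] at this
    omega
  rw [Finset.mem_Icc] at hn1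
  obtain ⟨y, hy⟩ : ∃ y, y = m / (4 * q) := ⟨_, rfl⟩
  have hy1 : y * (4 * q) ≤ m := by rw [hy]; exact Nat.div_mul_le_self m _
  have hy2 : m < (y + 1) * (4 * q) := by
    rw [hy, mul_comm]; exact Nat.lt_mul_div_succ m (by omega)
  have hqF : 24 * q ≤ Q := by rw [hQ]; nlinarith
  have hyg : 2 ≤ y := by
    rw [hy, Nat.le_div_iff_mul_le (by omega)]
    omega
  obtain ⟨κ, hκ⟩ : ∃ κ, y = κ + 1 := ⟨y - 1, by omega⟩
  have hnQ : n * Q * 2 ≤ m := by
    calc n * Q * 2 ≤ x * Q * 2 := by gcongr; exact hn1.2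
      _ = x * (2 * Q) := by ring
      _ ≤ m := hx1
  have hκq : (κ + 1) * (2 * q) * 2 ≤ m := by
    calc (κ + 1) * (2 * q) * 2 = y * (4 * q) := by rw [hκ]; ring
      _ ≤ m := hy1
  have hbig : q + 1 ≤ (κ + 1) * (2 * q) := by nlinarith
  obtain ⟨m', hm'⟩ : ∃ m', m' + (q + 1) = n * Q + (κ + 1) * (2 * q) :=
    ⟨n * Q + (κ + 1) * (2 * q) - (q + 1), by omega⟩
  have hm'm : m' ≤ m := by omega
  have key := h q n κ m' M (by omega) (by omega) hn2 (by omega) (by rw [← hF, ← hQ]; exact hm')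
    (hmono m m' M hm'm hP) 15 q (by norm_num) (by omega)
  rw [← hF, ← hQ] at key
  have hc := core q n κ M Q (κ * (n * Q * (2 * q))) hq (by rw [hQ, hF]) (by omega) rfl key
  -- real estimates
  have hq0 : (0 : ℝ) < q := by exact_mod_cast (by omega : 0 < q)
  obtain ⟨u, hu⟩ : ∃ u : ℝ, u = κ * (2 * q) := ⟨_, rfl⟩
  obtain ⟨w, hw⟩ : ∃ w : ℝ, w = n * Q := ⟨_, rfl⟩
  have hKr : ((κ * (n * Q * (2 * q)) : ℕ) : ℝ) = u * w := by rw [hu, hw]; push_cast; ring
  rw [hKr] at hc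
  have mq : (3000000 : ℝ) * (4 * q) ≤ m := by
    have : 3000000 * (4 * q) ≤ m := by
      calc 3000000 * (4 * q) ≤ 1728000 * (24 * q) := by omega
        _ ≤ 1728000 * Q := by gcongr
        _ ≤ m := hA2
    exact_mod_cast this
  have hu1 : (m : ℝ) / 2 - 4 * q ≤ u := by
    have : (m : ℝ) < (κ + 1 + 1) * (4 * q) := by
      have := hy2; rw [hκ] at this; exact_mod_cast this
    rw [hu]; linarith
  have hw1 : (m : ℝ) / 2 - (β + 1) * Q ≤ w := by
    have h1 : (m : ℝ) < (x + 1) * (2 * Q) := by exact_mod_cast hx2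
    have h2 : (x : ℝ) ≤ n + β := by exact_mod_cast (by omega : x ≤ n + β)
    have h3 : (x : ℝ) * Q ≤ (n + β) * Q := by
      apply mul_le_mul_of_nonneg_right h2; positivity
    rw [hw]; nlinarith
  have hβQ : ((β : ℝ) + 1) * Q ≤ m / 12 + m / 1728000 := by
    have h1 : (12 : ℝ) * (β * Q) ≤ m := by
      have : 12 * (β * Q) ≤ m := by
        calc 12 * (β * Q) = 24 * (q * (Q * Q)) := by rw [hβ]; ring
          _ = 24 * (q * F ^ 4) := by rw [hQF]
          _ ≤ m := hA1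
      exact_mod_cast this
    have h2 : (1728000 : ℝ) * Q ≤ m := by exact_mod_cast hA2
    nlinarith
  have hm0 : (0 : ℝ) ≤ m := by positivity
  have hu2 : (0.49999 : ℝ) * m ≤ u := by linarith
  have hw2 : (0.41666 : ℝ) * m ≤ w := by linarith
  have huw : (0.20832 : ℝ) * (m : ℝ) ^ 2 ≤ u * w := by
    have := mul_le_mul hu2 hw2 (by positivity) (by linarith [mul_nonneg (by norm_num : (0:ℝ) ≤ 0.49999) hm0])
    nlinarith
  have hqsmall : (q : ℝ) ≤ 0.0027 * (u * w) := by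
    have : (12000000 : ℝ) * q * 1 ≤ m := by linarith
    have h1m : (1 : ℝ) ≤ m := by exact_mod_cast (by omega : 1 ≤ m)
    nlinarith
  have hfin : 0.91 * (u * w) ≤ (2 * (M : ℝ) + 1) * (15 / q) := by linarith
  have hfin2 : 0.91 * (u * w) * q ≤ (2 * (M : ℝ) + 1) * 15 := by
    have := mul_le_mul_of_nonneg_right hfin hq0.le
    have e : (2 * (M : ℝ) + 1) * (15 / q) * q = (2 * (M : ℝ) + 1) * 15 := by field_simp
    rw [e] at this
    exact this
  have hgoal : (q : ℝ) * (m : ℝ) ^ 2 ≤ 160 * ((M : ℝ) + 1) := by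
    have h1 : (0.20832 : ℝ) * (m : ℝ) ^ 2 * q ≤ u * w * q := mul_le_mul_of_nonneg_right huw hq0.le
    have hM : (0 : ℝ) ≤ M := by positivity
    nlinarith
  exact_mod_cast hgoal

end L5helper96.DC
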