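import Pool.Agent.L5helper96.DC.Arith

/-!
The bound `q m ^ 2 / 160` for `(q !) ^ 5 ≤ m` in the form `m ^ 2 log m / (960 log log m)`.
-/

namespace L5helper96.DC

theorem exists_q (m : ℕ) (hm : 120 ^ 5 ≤ m) : ∃ q : ℕ, 5 ≤ q ∧ q.factorial ^ 5 ≤ m ∧
    Real.log m / (6 * Real.log (Real.log m)) ≤ q := by
  have hex : ∃ q : ℕ, m < (q + 1).factorial ^ 5 := by
    refine ⟨m, ?_⟩
    calc m < m + 1 := Nat.lt_succ_self m
      _ ≤ (m + 1).factorial := Nat.self_le_factorial _
      _ ≤ (m + 1).factorial ^ 5 := Nat.le_self_pow (by norm_num) _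
  classical
  obtain ⟨q, hq⟩ : ∃ q, q = Nat.find hex := ⟨_, rfl⟩
  have h1 : m < (q + 1).factorial ^ 5 := by rw [hq]; exact Nat.find_spec hex
  have hq5 : 5 ≤ q := by
    by_contra hlt
    push Not at hlt
    have : (q + 1).factorial ≤ (5 : ℕ).factorial := Nat.factorial_le (by omega)
    have h5 : (5 : ℕ).factorial = 120 := rfl
    rw [h5] at this
    have := Nat.pow_le_pow_left this 5
    omega
  have h2 : q.factorial ^ 5 ≤ m := by
    have := Nat.find_min hex (m := q - 1) (by omega)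
    rw [show q - 1 + 1 = q by omega] at this
    omega
  refine ⟨q, hq5, h2, ?_⟩
  have hq5' : (5 : ℝ) ≤ q := by exact_mod_cast hq5
  have hm0 : (0 : ℝ) < m := by
    have : 0 < m := by omega
    exact_mod_cast this
  have hfq : (0 : ℝ) < (q.factorial : ℝ) := by exact_mod_cast q.factorial_pos
  have hfq1 : (0 : ℝ) < ((q + 1).factorial : ℝ) := by exact_mod_cast (q + 1).factorial_pos
  -- upper bound for log m
  have u1 : Real.log m ≤ 5 * ((q + 1 : ℝ) * Real.log (q + 1)) := by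
    have h3 : (m : ℝ) ≤ ((q + 1 : ℝ) ^ (q + 1)) ^ 5 := by
      have : m ≤ ((q + 1) ^ (q + 1)) ^ 5 :=
        h1.le.trans (Nat.pow_le_pow_left (Nat.factorial_le_pow (q + 1)) 5)
      exact_mod_cast this
    have := Real.log_le_log hm0 h3
    rw [Real.log_pow, Real.log_pow] at this
    push_cast at this
    linarith
  -- lower bound for log m
  have l1 : 5 * ((q : ℝ) * (Real.log q - 1)) ≤ Real.log m := by
    have h3 : ((q.factorial : ℝ)) ^ 5 ≤ m := by exact_mod_cast h2
    have := Real.log_le_log (by positivity) h3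
    rw [Real.log_pow] at this
    have := log_factorial_ge q (by omega)
    push_cast at *
    linarith
  have hlog5 : (1.6 : ℝ) ≤ Real.log q := by
    have h5 : (1.6 : ℝ) ≤ Real.log 5 := by
      have h2 : (0.6931471803 : ℝ) < Real.log 2 := Real.log_two_gt_d9
      have h1 : 1 - (5 / 4 : ℝ)⁻¹ ≤ Real.log (5 / 4) :=
        Real.one_sub_inv_le_log_of_pos (by norm_num)
      have h1' : 1 - (125 / 128 : ℝ)⁻¹ ≤ Real.log (125 / 128) :=
        Real.one_sub_inv_le_log_of_pos (by norm_num)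
      have h3 : Real.log (125 / 128) = 3 * Real.log 5 - 7 * Real.log 2 := by
        rw [Real.log_div (by norm_num) (by norm_num), show (125 : ℝ) = 5 ^ 3 by norm_num,
          show (128 : ℝ) = 2 ^ 7 by norm_num, Real.log_pow, Real.log_pow]
        norm_num
      rw [h3] at h1'
      norm_num at h1' ⊢
      linarith
    exact h5.trans (Real.log_le_log (by norm_num) hq5')
  have l2 : (q : ℝ) + 1 ≤ Real.log m := by
    have : 5 * ((q : ℝ) * 0.6) ≤ 5 * ((q : ℝ) * (Real.log q - 1)) := by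
      have : (q : ℝ) * 0.6 ≤ (q : ℝ) * (Real.log q - 1) :=
        mul_le_mul_of_nonneg_left (by linarith) (by positivity)
      linarith
    linarith
  have l3 : Real.log ((q : ℝ) + 1) ≤ Real.log (Real.log m) :=
    Real.log_le_log (by positivity) l2
  have l4 : 0 < Real.log ((q : ℝ) + 1) := Real.log_pos (by linarith)
  have l5 : 0 < Real.log (Real.log m) := by linarith
  rw [div_le_iff₀ (by positivity)]
  calc Real.log m ≤ 5 * ((q + 1 : ℝ) * Real.log (q + 1)) := u1
    _ ≤ 5 * ((q + 1 : ℝ) * Real.log (Real.log m)) := by gcongr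
    _ ≤ (q : ℝ) * (6 * Real.log (Real.log m)) := by
        nlinarith

/-- from `q m ^ 2 ≤ 160 (M + 1)` for `(q !) ^ 5 ≤ m` to `m ^ 2 log m / (960 log log m) ≤ M + 1` -/
theorem log_form (P : ℕ → ℕ → Prop)
    (h : ∀ q m M, 5 ≤ q → q.factorial ^ 5 ≤ m → P m M → q * m ^ 2 ≤ 160 * (M + 1)) :
    ∀ m M, 120 ^ 5 ≤ m → P m M →
      (m : ℝ) ^ 2 * Real.log m / (960 * Real.log (Real.log m)) ≤ (M : ℝ) + 1 := by
  intro m M hm hP
  obtain ⟨q, hq, hqm, hl⟩ := exists_q m hm
  have h1 : (q : ℝ) * (m : ℝ) ^ 2 ≤ 160 * ((M : ℝ) + 1) := by exact_mod_cast h q m M hq hqm hP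
  have h2 : (m : ℝ) ^ 2 * Real.log m / (960 * Real.log (Real.log m)) =
      (m : ℝ) ^ 2 / 160 * (Real.log m / (6 * Real.log (Real.log m))) := by
    rw [div_mul_div_comm]; congr 1; ring
  rw [h2]
  calc (m : ℝ) ^ 2 / 160 * (Real.log m / (6 * Real.log (Real.log m)))
      ≤ (m : ℝ) ^ 2 / 160 * q := by gcongr
    _ ≤ (M : ℝ) + 1 := by linarith

end L5helper96.DC
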